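import Pool.Agent.Helper51.CX.St

set_option autoImplicit false

/-!
Project CX (MP_a41ee4_co), module B1Y: step B1, the row `Y`.
-/

namespace Pool.Agent.Helper29.CX

open Pool.Agent.Helper51.CX

/-- **B1Y**. -/
theorem hB1Y : StBDP → StBDD → StB1Y := by
  intro hBDP hBDD K _ _ _ j z d hz hf hL hlt hY
  -- the new position
  have hLz : L j (z + d) = 10 ^ 60 := by rw [L_add, hL, hz.tj, add_zero]
  obtain ⟨p1, p2, p3, p4, p5, p6, p7, p8, p9, -, -⟩ := hBDP K j hz.lo hz.hi (z + d) hf hLz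
  obtain ⟨q1, q2, q3, -, -, -, -, -, -, -, -⟩ := hBDP K j hz.lo hz.hi z hz.fe hz.tj
  obtain ⟨r1, -, -, -, -, -, -, -, r9⟩ := hBDD K j hz.lo hz.hi d
  have r1' := r1 hL
  have hn := nn_le z d
  have hm := mm_le z d
  -- coordinates
  have c2 : d 2 = (z + d) 2 - z 5 * (v1 j : K) := by rw [Pi.add_apply, hz.e2]; ring
  have c3 : d 3 = (z + d) 3 - z 5 * (v2 j : K) := by rw [Pi.add_apply, hz.e3]; ring
  have c4 : d 4 = (z + d) 4 - z 5 * (v3 j : K) := by rw [Pi.add_apply, hz.e4]; ring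
  have hP : pp j d = pp j (z + d) - z 5 * ((fx j : K) ^ 2 + (fy j : K) ^ 2) := by
    have h1 : pp j z = z 5 * ((fx j : K) ^ 2 + (fy j : K) ^ 2) := by
      simp only [pp, hz.e0, hz.e1]; ring
    rw [pp_add, h1]; ring
  have hW : ww j d = ww j (z + d) := by
    have h1 : ww j z = 0 := by
      simp only [ww, hz.e0, hz.e1]; ring
    rw [ww_add, h1, zero_add]
  have hFd : ((fx j : K) ^ 2 + (fy j : K) ^ 2) * d 1 = fy j * pp j d + fx j * ww j d := r9
  have hlt' : 100 * pp j (z + d) < 49 * ((fx j : K) ^ 2 + (fy j : K) ^ 2) := hlt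
  rw [hP, hW] at hFd
  -- sizes
  obtain ⟨s1, s2⟩ := abs_le.1 (show |(z + d) 5 - 1| ≤ 1 / 10 ^ 14 by
    rw [le_div_iff₀ (by positivity)]; linarith)
  obtain ⟨t1, t2⟩ := abs_le.1 (show |z 5 - 1| ≤ 1 / 10 ^ 14 by
    rw [le_div_iff₀ (by positivity)]; linarith)
  have s3 : (z + d) 5 ≤ 2 := by linarith
  have t3 : z 5 ≤ 2 := by linarith
  have w0 : |ww j (z + d)| ≤ 1 / 10 ^ 16 := by
    rw [le_div_iff₀ (by positivity)]
    have h1 := (abs_le.1 p6).1
    have h2 : 10 ^ 40 * |ww j (z + d)| ≤ 10 ^ 23 * 4 := by linarith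
    have h3 : (10 : K) ^ 40 = 10 ^ 24 * 10 ^ 16 := by norm_num
    rw [h3] at h2
    by_contra h4
    push Not at h4
    linarith
  obtain ⟨w1, w2⟩ := abs_le.1 w0
  have d0 : |d 5| ≤ 1 / 10 ^ 12 := by
    rw [le_div_iff₀ (by positivity)]
    linarith
  have hY' : |d 1 - (d 2 + 3 * d 3 + 9 * d 4)| ≤ 50 * (1 / 10 ^ 12) := by
    have h1 : |d 1 - (d 2 + 3 * d 3 + 9 * d 4)| = 50 * |d 5| := hY
    rw [h1]
    linarith
  obtain ⟨y1, y2⟩ := abs_le.1 hY'
  obtain ⟨a1, a2⟩ := abs_le.1 hf.z2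
  obtain ⟨b1, b2⟩ := abs_le.1 hf.z3
  obtain ⟨e1, e2⟩ := abs_le.1 hf.z4
  rw [c2, c3, c4] at y1 y2
  generalize (z + d) 5 = s at *
  generalize z 5 = t at *
  generalize (z + d) 2 = x2 at *
  generalize (z + d) 3 = x3 at *
  generalize (z + d) 4 = x4 at *
  generalize pp j (z + d) = P at *
  generalize ww j (z + d) = W at *
  clear hP hW c2 c3 c4 hlt p2 p3 p4 p5 p6 p7 p8 p9 q2 q3 r1 r9 hn hm r1' p1 q1 w0 d0 hY' hLz hL hY
  generalize d 1 = u at *
  obtain ⟨g1, g2, g3, g4, g5⟩ := sgn (K := K) j hz.lo hz.hi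
  generalize (fx j : K) = f at *
  generalize (fy j : K) = g at *
  generalize (v1 j : K) = α at *
  generalize (v2 j : K) = β at *
  generalize (v3 j : K) = γ at *
  clear hz hf
  rcases g1 with rfl | rfl <;> rcases g2 with rfl | rfl <;> rcases g3 with rfl | rfl <;>
    rcases g4 with rfl | rfl <;> rcases g5 with rfl | rfl <;> norm_num at * <;> linarith

end Pool.Agent.Helper29.CX
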